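import Mathlib
import Pool.Agent.W_52423f_h53.AA

set_option autoImplicit false

/-! Let `K` be a number field, `T` a vector space over `ℚ_p` with a commuting action of `K`,
`log : V → T` a `K`-linear map and `Γ` a finitely generated subgroup of `V`.  Suppose that
`ℚ_p ⊗ K` is a field and `log` is injective on `Γ`, or that the logarithms of `ℤ`-independent
elements of `Γ` are independent over the algebraic numbers.  Then the closure of the logarithms of
every subgroup `L` of `Γ` is a free `ℤ_p`-module of rank at least `rank L / dim_K (K L)`, and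
almost all `m`-tuples of elements of `Γ` generate a subgroup whose logarithms have a closure of
rank `m`, with an explicit bound for the number of exceptions. -/

namespace Pool.Agent.W_52423f_old.AlmostAllK

open Module TensorProduct

theorem result (p : ℕ) [Fact p.Prime] (K : Type) [Field K] [NumberField K] (V : Type)
    [AddCommGroup V] [Module K V] (T : Type) [AddCommGroup T] [Module ℚ_[p] T] [Module ℤ_[p] T]
    [IsScalarTower ℤ_[p] ℚ_[p] T] [Module K T] [SMulCommClass ℚ_[p] K T] [TopologicalSpace T]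
    [IsTopologicalAddGroup T] [ContinuousSMul ℚ_[p] T] [T2Space T] (log : V →ₗ[K] T)
    (Γ : AddSubgroup V) (hΓ : Γ.FG)
    (h : (IsField (ℚ_[p] ⊗[ℚ] K) ∧ ∀ x ∈ Γ, log x = 0 → x = 0) ∨
      ∀ (n : ℕ) (v : Fin n → V), (∀ i, v i ∈ Γ) → LinearIndependent ℤ v →
        ∀ a : Fin n → AlgebraicClosure ℚ_[p], (∀ i, IsAlgebraic ℚ (a i)) →
          ∑ i, a i ⊗ₜ[ℚ_[p]] log (v i) = 0 → a = 0) :
    (∀ L : AddSubgroup V, L ≤ Γ → ∃ H : Submodule ℤ_[p] T, (H : Set T) = closure (log '' L) ∧
      Module.Finite ℤ_[p] H ∧ Module.Free ℤ_[p] H ∧ finrank ℤ_[p] H ≤ finrank ℤ L ∧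
      finrank ℤ L ≤ finrank K (Submodule.span K (L : Set V)) * finrank ℤ_[p] H) ∧
    ∀ (R : ℕ) (g : Fin R → V), (∀ j, g j ∈ Γ) → LinearIndependent ℤ g → ∀ m B : ℕ,
      {x : Fin m → Fin R → ℤ | (∀ i j, |x i j| ≤ (B : ℤ)) ∧
        ¬ ∃ H : Submodule ℤ_[p] T, (H : Set T) = closure (log '' (AddSubgroup.closure
          (Set.range fun i => ∑ j, x i j • g j) : Set V)) ∧ Module.Finite ℤ_[p] H ∧
            Module.Free ℤ_[p] H ∧ finrank ℤ_[p] H = m}.ncard ≤
        m * (2 * B + 1) ^ ((m - 1) * (R + finrank K (Submodule.span K (Set.range g)))) := by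
  refine ⟨fun L hL => ?_, fun R g hg hgi m B =>
    Pool.Agent.W_52423f_h53.almost_all p K V T log Γ h g hg hgi m B⟩
  have hLfg : L.FG := by
    have h1 : (AddSubgroup.toIntSubmodule Γ).FG := by
      rw [Submodule.fg_iff_addSubgroup_fg]
      exact hΓ
    have h2 : IsNoetherian ℤ (AddSubgroup.toIntSubmodule Γ) := isNoetherian_of_fg_of_noetherian _ h1
    have h3 := (isNoetherian_submodule.mp h2) (AddSubgroup.toIntSubmodule L) hL
    rwa [Submodule.fg_iff_addSubgroup_fg] at h3
  refine Pool.Agent.W_52423f_h69.final p K V T log L hLfg ?_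
  rcases h with ⟨h1, h2⟩ | h1
  · exact Or.inl ⟨h1, fun x hx => h2 x (hL hx)⟩
  · exact Or.inr fun n v hv => h1 n v fun i => hL (hv i)

end Pool.Agent.W_52423f_old.AlmostAllK
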